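import Pool.Agent.MWGR.StmtsF

/-!
# MWGR, row RNE: renaming for alternating tails
-/

namespace Pool.Agent.MWGR.H26

open Pool.Agent.Helper14_MV Pool.Agent.Helper2_MV Pool.Agent.MVO Pool.Agent.MWL Pool.Agent.MWS
  Pool.Agent.MWH Pool.Agent.MWGR

/-- the cycle `2 ↦ 3 ↦ .. ↦ k + 2 ↦ 2` -/
def cyc (k : ℕ) : Equiv.Perm ℕ where
  toFun c := if 2 ≤ c ∧ c ≤ k + 1 then c + 1 else if c = k + 2 then 2 else c
  invFun c := if 3 ≤ c ∧ c ≤ k + 2 then c - 1 else if c = 2 then k + 2 else c
  left_inv c := by
    simp only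
    split_ifs <;> omega
  right_inv c := by
    simp only
    split_ifs <;> omega

theorem cyc_apply (k c : ℕ) :
    cyc k c = if 2 ≤ c ∧ c ≤ k + 1 then c + 1 else if c = k + 2 then 2 else c := rfl

theorem asm_flat (k : ℕ) (B : ℕ → List ℕ) :
    asm k B = B 0 ++ (List.range k).flatMap (fun j => (j + 2) :: B (j + 1)) := by
  induction k with
  | zero => simp [asm]
  | succ k ih =>
    rw [asm, ih, List.range_succ, List.flatMap_append, List.flatMap_singleton, List.append_assoc]

theorem rne : RneStmt := by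
  intro k
  refine ⟨cyc k, ?_, ?_, ?_, fun B => ?_⟩
  · rw [cyc_apply]; split_ifs <;> omega
  · rw [cyc_apply]; split_ifs <;> omega
  · rw [cyc_apply]; split_ifs <;> omega
  · rw [asm_flat, List.map_append, List.map_flatMap]
    congr 1
    apply List.flatMap_congr
    intro j hj
    have hjk : j < k := List.mem_range.1 hj
    have e : cyc k (j + 2) = 3 + j := by
      rw [cyc_apply]; split_ifs <;> omega
    rw [List.map_cons, e]

end Pool.Agent.MWGR.H26
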